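import Pool.Agent.helper5.DH.Spec
import Pool.Agent.helper99.HY.PDC

set_option autoImplicit false

open Complex Metric Set Filter Topology MeasureTheory Pool.Agent.helper98.ILF Pool.Agent.helper16.Multibrot
open HY (UD T S hd UN RM VV SG Orb fz)

noncomputable section

namespace DH

theorem COP (hKO0 : V3.KO0_stmt) : COP_stmt := by
  intro V a φ hφ
  have hop : IsOpen UD := isOpen_ball
  have h0 : (0 : ℂ) ∈ UD := by
    unfold UD
    rw [mem_ball_zero_iff, norm_zero]
    exact one_pos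
  have hd : ∀ x ∈ UD, deriv φ x ≠ 0 := fun x hx => hKO0 φ UD hop hφ.dif hφ.inj x hx
  have hinv : ∀ x ∈ UD, co φ (φ x) = x := fun x hx =>
    hφ.inj (Function.invFunOn_apply_mem (f := φ) hx) hx (Function.invFunOn_apply_eq (f := φ) hx)
  have hV : IsOpen V := by
    rw [isOpen_iff_mem_nhds]
    intro z hz
    rw [← hφ.img] at hz
    obtain ⟨x, hx, rfl⟩ := hz
    have han : AnalyticAt ℂ φ x := hφ.dif.analyticAt (hop.mem_nhds hx)
    have hst : HasStrictDerivAt φ (deriv φ x) x := han.hasStrictDerivAt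
    have hmap : Filter.map φ (𝓝 x) = 𝓝 (φ x) := hst.map_nhds_eq (hd x hx)
    rw [← hmap, ← hφ.img]
    exact Filter.image_mem_map (hop.mem_nhds hx)
  have hz : ∀ z ∈ V, ∃ x ∈ UD, φ x = z := by
    intro z hz
    rw [← hφ.img] at hz
    exact hz
  refine ⟨hV, ?_, ?_, ?_, ?_, ?_, hd⟩
  · rw [← hφ.img, ← hφ.val]
    exact ⟨0, h0, rfl⟩
  · rw [← hφ.val]
    exact hinv 0 h0
  · intro z hz'
    exact ⟨Function.invFunOn_mem (hz z hz'), Function.invFunOn_eq (hz z hz')⟩
  · intro x hx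
    refine ⟨?_, hinv x hx⟩
    rw [← hφ.img]
    exact ⟨x, hx, rfl⟩
  · obtain ⟨g, hg, hgd⟩ := HY.PDC_inv hKO0 hφ.dif hφ.inj
    have h1 : DifferentiableOn ℂ g V := by
      intro z hz'
      obtain ⟨x, hx, rfl⟩ := hz z hz'
      exact (hgd x hx).differentiableWithinAt
    refine h1.congr ?_
    intro z hz'
    obtain ⟨x, hx, rfl⟩ := hz z hz'
    rw [hinv x hx, hg x hx]

end DH
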