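import Pool.Agent.helper5.DH.Spec

set_option autoImplicit false

open Complex Metric Set Filter Topology MeasureTheory Pool.Agent.helper98.ILF Pool.Agent.helper16.Multibrot
open HY (UD T S hd UN RM VV SG Orb fz)

noncomputable section

namespace DH

theorem LFT_mem_UD {x : ℂ} : x ∈ UD ↔ ‖x‖ < 1 := by
  unfold UD
  rw [mem_ball_zero_iff]

theorem LFT_S_eq (a x : ℂ) : S a x = T (-a) x := by
  unfold S T
  rw [map_neg, sub_neg_eq_add, neg_mul, sub_neg_eq_add]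

theorem LFT_S_norm (hMOB : HY.MOB_stmt) (M : ℕ) (a x : ℂ) (ha : ‖a‖ < 1 - (1 / 2 : ℝ) ^ M)
    (hx : x ∈ UD) : ‖S a (x / 16)‖ ≤ 1 - (1 / 2 : ℝ) ^ M / 16 := by
  have hq : (0 : ℝ) < (1 / 2 : ℝ) ^ M := by positivity
  have hq1 : (1 / 2 : ℝ) ^ M ≤ 1 := pow_le_one₀ (by norm_num) (by norm_num)
  have hx1 : ‖x‖ < 1 := LFT_mem_UD.1 hx
  have ha0 : 0 ≤ ‖a‖ := norm_nonneg a
  have haU : -a ∈ UD := by
    rw [LFT_mem_UD, norm_neg]
    linarith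
  have hx16 : ‖x / 16‖ ≤ 1 / 16 := by
    rw [norm_div]
    have : ‖(16 : ℂ)‖ = 16 := by norm_num
    rw [this]
    linarith
  have hxU : x / 16 ∈ UD := by
    rw [LFT_mem_UD]
    linarith
  obtain ⟨-, -, -, -, -, -, -, h1, -, -, -, -⟩ := hMOB (-a) haU
  have h2 := h1 (x / 16) hxU
  rw [← LFT_S_eq, norm_neg, map_neg, neg_mul, sub_neg_eq_add] at h2
  have hden : ‖1 + (starRingEnd ℂ) a * (x / 16)‖ ≤ 2 := by
    calc ‖1 + (starRingEnd ℂ) a * (x / 16)‖ ≤ ‖(1 : ℂ)‖ + ‖(starRingEnd ℂ) a * (x / 16)‖ :=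
          norm_add_le _ _
      _ = 1 + ‖a‖ * ‖x / 16‖ := by rw [norm_one, norm_mul, RCLike.norm_conj]
      _ ≤ 2 := by nlinarith [norm_nonneg (x / 16)]
  have hden0 : 0 < ‖1 + (starRingEnd ℂ) a * (x / 16)‖ := by
    have h3 : ‖(1 : ℂ)‖ ≤ ‖1 + (starRingEnd ℂ) a * (x / 16)‖ + ‖(starRingEnd ℂ) a * (x / 16)‖ := by
      have := norm_sub_le (1 + (starRingEnd ℂ) a * (x / 16)) ((starRingEnd ℂ) a * (x / 16))
      rw [add_sub_cancel_right] at this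
      exact this
    rw [norm_one, norm_mul, RCLike.norm_conj] at h3
    nlinarith [norm_nonneg (x / 16)]
  have hnum : (1 / 2 : ℝ) ^ M * (255 / 256) ≤ (1 - ‖a‖ ^ 2) * (1 - ‖x / 16‖ ^ 2) := by
    have h4 : (1 / 2 : ℝ) ^ M ≤ 1 - ‖a‖ ^ 2 := by nlinarith
    have h5 : (255 / 256 : ℝ) ≤ 1 - ‖x / 16‖ ^ 2 := by nlinarith [norm_nonneg (x / 16)]
    exact mul_le_mul h4 h5 (by norm_num) (by linarith)
  have h6 : (1 / 2 : ℝ) ^ M * (255 / 256) / 4 ≤ 1 - ‖S a (x / 16)‖ ^ 2 := by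
    rw [h2, div_le_div_iff₀ (by norm_num) (by positivity)]
    have h7 : ‖1 + (starRingEnd ℂ) a * (x / 16)‖ ^ 2 ≤ 4 := by nlinarith
    have h8 : 0 ≤ (1 / 2 : ℝ) ^ M * (255 / 256) := by positivity
    nlinarith
  have h9 : 0 ≤ ‖S a (x / 16)‖ := norm_nonneg _
  by_contra hc
  push Not at hc
  have h10 : 0 ≤ 1 - (1 / 2 : ℝ) ^ M / 16 := by linarith
  nlinarith

theorem LFT (hFAE : FAE_stmt) (hBTP : BTP_stmt) (hTSG : TSG_stmt) (hRMI : HY.RMI_stmt)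
    (hMOB : HY.MOB_stmt) (hHDI : HY.HDI_stmt) (hVKB : HY.VKB_stmt) (hKO0 : V3.KO0_stmt) (hKO3 : V3.KO3_stmt) : LFT_stmt := by
  intro M hM
  have hq : (0 : ℝ) < (1 / 2 : ℝ) ^ M := by positivity
  have hq1 : (1 / 2 : ℝ) ^ M ≤ 1 := pow_le_one₀ (by norm_num) (by norm_num)
  obtain ⟨C, hC1, hC⟩ := hKO3 ((1 / 2 : ℝ) ^ M / 32) (by positivity) (by linarith)
  have hC0 : 0 < C := by linarith
  refine ⟨17 * C * 2 ^ M, by positivity, ?_⟩
  intro n r c Φ b hCL hT hdis horb k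
  have hn := hT.hn
  have hc := hT.hc
  obtain ⟨-, -, hcf, -, -, -, -, -, hVs, hfV, -, -⟩ := hVKB n c hn hc
  obtain ⟨t, hFA⟩ := hFAE n c Φ b M k c hM hT hcf horb
  obtain ⟨-, hB⟩ := hBTP n c Φ b hT
  obtain ⟨-, hyv, -, -⟩ := hB k 0 c hcf
  have hSG := hTSG n c Φ b hT k
  have hrm := hT.rm k
  have h0U : (0 : ℂ) ∈ UD := by rw [LFT_mem_UD, norm_zero]; exact one_pos
  have hUDo : IsOpen UD := isOpen_ball
  -- the orbit
  set y : ℕ → ℂ := fun i => yv Φ n c k c i with hy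
  have hyU : ∀ i, y i ∈ UD := fun i => (hyv k i).1
  have hyΦ : ∀ i, Φ k (y i) = (fz n c)^[i] c := fun i => (hyv k i).2
  have hOrb : Orb n c (Φ k) M y t :=
    { mem := fun i _ => hyU i
      stp := fun i _ => by rw [hyΦ, hyΦ, Function.iterate_succ_apply']
      far := hFA.far }
  obtain ⟨H, hHU, hH0, hHf, -⟩ := hCL c hc hdis (VV n c k) (Φ k) (Φ (k + 1)) (b k) hSG y t hOrb 0 (Nat.zero_le _)
  rw [Nat.sub_zero] at hHf
  have hnear : ‖y t‖ < 1 - (1 / 2 : ℝ) ^ M := by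
    have := hFA.near
    change _ < 1 - ‖y t‖ at this
    linarith
  -- the branch at `c`
  set X₁ : ℂ → ℂ := fun x => Φ k (H x) with hX₁
  have hX₁RM : RM (X₁ '' UD) c X₁ :=
    { dif := hrm.dif.comp hHU.dif hHU.map
      inj := hrm.inj.comp hHU.inj hHU.map
      img := rfl
      val := by rw [hX₁]; change Φ k (H 0) = c; rw [hH0, hyΦ]; rfl }
  obtain ⟨X, hXRM, hXf⟩ := hRMI n c (X₁ '' UD) X₁ hn hX₁RM
  have hpowU : ∀ x ∈ UD, x ^ n ∈ UD := by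
    intro x hx
    rw [LFT_mem_UD] at hx ⊢
    rw [norm_pow]
    exact pow_lt_one₀ (norm_nonneg _) hx (by omega)
  -- the map `Ψ`
  obtain ⟨hUN, hS0, -, -⟩ := hHDI.2.2 (y t) (hyU t)
  set Ψ : ℂ → ℂ := fun x => Φ k (S (y t) (x / 16)) with hΨ
  have hS1 : ∀ x ∈ UD, S (y t) (x / 16) ∈ ball (0 : ℂ) ((1 - (1 / 2 : ℝ) ^ M / 32) * 1) := by
    intro x hx
    rw [mem_ball_zero_iff, mul_one]
    have := LFT_S_norm hMOB M (y t) x hnear hx
    linarith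
  obtain ⟨-, hdist⟩ := hC (Φ k) 0 1 one_pos hrm.dif hrm.inj
  have hd0 : deriv (Φ k) 0 ≠ 0 := hKO0 (Φ k) UD hUDo hrm.dif hrm.inj 0 h0U
  have hd0' : 0 < ‖deriv (Φ k) 0‖ := norm_pos_iff.2 hd0
  have h2M : (1 : ℝ) ≤ 2 ^ M := one_le_pow₀ (by norm_num)
  refine ⟨t + 1, X, Ψ, hXRM.dif, hXRM.inj, hXRM.val, ?_, hrm.dif.comp hUN.dif hUN.map,
    hrm.inj.comp hUN.inj hUN.map, ?_, ?_, ?_⟩
  · intro x hx
    rw [hVs k]
    change fz n c (X x) ∈ VV n c k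
    rw [hXf x hx, ← hrm.img]
    exact ⟨_, hHU.map (hpowU x hx), rfl⟩
  · intro x hx
    rw [Function.iterate_succ_apply, hXf x hx]
    exact hHf _ (hpowU x hx)
  · intro x hx
    obtain ⟨-, -, h3, -⟩ := hdist _ (hS1 x hx)
    rw [hrm.val, sub_zero, sub_zero] at h3
    have h4 : ‖S (y t) (x / 16)‖ ≤ 1 := by
      have := LFT_S_norm hMOB M (y t) x hnear hx
      linarith
    calc ‖Ψ x‖ ≤ C * ‖S (y t) (x / 16)‖ * ‖deriv (Φ k) 0‖ := h3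
      _ ≤ C * 1 * ‖deriv (Φ k) 0‖ := by gcongr
      _ < 17 * C * 2 ^ M * ‖deriv (Φ k) 0‖ := by
        apply mul_lt_mul_of_pos_right _ hd0'
        nlinarith
  · have h5 : S (y t) (0 / 16) = y t := hS0
    obtain ⟨-, h6, -, -⟩ := hdist (y t) (by
      have := hS1 0 h0U
      rw [h5] at this
      exact this)
    have hSd : HasDerivAt (fun x : ℂ => S (y t) (x / 16)) ((1 - (‖y t‖ : ℂ) ^ 2) / 16) 0 := by
      obtain ⟨-, -, -, -, hSdif, -, -, -, -, -, hSder, -⟩ := hMOB (y t) (hyU t)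
      have e1 : HasDerivAt (S (y t)) (1 - (‖y t‖ : ℂ) ^ 2) ((fun x : ℂ => x / 16) 0) := by
        have e2 : (fun x : ℂ => x / 16) 0 = 0 := by simp
        rw [e2, ← hSder]
        exact (hSdif.differentiableAt (hUDo.mem_nhds h0U)).hasDerivAt
      have e3 : HasDerivAt (fun x : ℂ => x / 16) (1 / 16) 0 := (hasDerivAt_id 0).div_const 16
      have e4 := e1.comp (0 : ℂ) e3
      rw [mul_one_div] at e4
      exact e4
    have hΨd : deriv Ψ 0 = deriv (Φ k) (y t) * ((1 - (‖y t‖ : ℂ) ^ 2) / 16) := by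
      have e1 : HasDerivAt (Φ k) (deriv (Φ k) (y t)) ((fun x : ℂ => S (y t) (x / 16)) 0) := by
        change HasDerivAt (Φ k) (deriv (Φ k) (y t)) (S (y t) (0 / 16))
        rw [h5]
        exact (hrm.dif.differentiableAt (hUDo.mem_nhds (hyU t))).hasDerivAt
      exact (e1.comp (0 : ℂ) hSd).deriv
    have hnn : ‖(1 - (‖y t‖ : ℂ) ^ 2) / 16‖ = (1 - ‖y t‖ ^ 2) / 16 := by
      have e1 : (1 - (‖y t‖ : ℂ) ^ 2) / 16 = (((1 - ‖y t‖ ^ 2) / 16 : ℝ) : ℂ) := by push_cast; ring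
      rw [e1, Complex.norm_real, Real.norm_of_nonneg]
      have := norm_nonneg (y t)
      nlinarith
    rw [hΨd, norm_mul, hnn]
    have h7 : (1 / 2 : ℝ) ^ M ≤ 1 - ‖y t‖ ^ 2 := by nlinarith [norm_nonneg (y t)]
    have h8 : (2 : ℝ) ^ M * (1 / 2 : ℝ) ^ M = 1 := by
      rw [← mul_pow]
      norm_num
    have h9 : 0 ≤ ‖deriv (Φ k) (y t)‖ := norm_nonneg _
    calc ‖deriv (Φ k) 0‖ ≤ C * ‖deriv (Φ k) (y t)‖ := h6
      _ = C * ‖deriv (Φ k) (y t)‖ * (2 ^ M * (1 / 2) ^ M) := by rw [h8, mul_one]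
      _ ≤ C * ‖deriv (Φ k) (y t)‖ * (2 ^ M * (1 - ‖y t‖ ^ 2)) := by gcongr
      _ ≤ C * ‖deriv (Φ k) (y t)‖ * (2 ^ M * (1 - ‖y t‖ ^ 2)) * (17 / 16) := by
        have : 0 ≤ C * ‖deriv (Φ k) (y t)‖ * (2 ^ M * (1 - ‖y t‖ ^ 2)) := by
          apply mul_nonneg (by positivity)
          apply mul_nonneg (by positivity)
          linarith
        linarith
      _ = 17 * C * 2 ^ M * (‖deriv (Φ k) (y t)‖ * ((1 - ‖y t‖ ^ 2) / 16)) := by ring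

end DH
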