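import Pool.Agent.helper15.DH.Spec
import Pool.Agent.helper78.ED.CO
import Pool.Agent.helper63.ED.PW
import Pool.Agent.helper93.ED.WG

/-!
# Project dh, module CLA: the class one theorem for two polynomials
-/

set_option autoImplicit false

open Complex MeasureTheory

namespace Pool.Agent.DH

open Pool.Agent.helper84.DM Pool.Agent.helper78.ED

theorem CLA_QQ (Z : Finset ℂ) (L : ℕ) : 0 ≤ QQ Z L :=
  Finset.sum_nonneg fun _ _ => Finset.sum_nonneg fun _ _ => by positivity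

/-- The two lengths. -/
theorem CLA_ML {N L X : ℝ} {k : ℕ} (hN : 1 ≤ N) (hX : 1 ≤ X) (hk : 2 ≤ k)
    (hNX : X ≤ N ^ (k + 1)) (hL0 : 0 ≤ L) (hL : (X / N) ^ (1 / 2 : ℝ) ≤ L) : X ≤ N ^ k * L := by
  have hN0 : 0 < N := by linarith
  have hX0 : 0 < X := by linarith
  have h1 : ((X / N) ^ (1 / 2 : ℝ)) ^ 2 = X / N := by
    rw [← Real.rpow_natCast, ← Real.rpow_mul (by positivity)]
    norm_num
  have h2 : X / N ≤ L ^ 2 := by
    rw [← h1]
    exact pow_le_pow_left₀ (by positivity) hL 2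
  have h3 : X ≤ N ^ (2 * k - 1) :=
    hNX.trans (pow_le_pow_right₀ hN (by omega))
  have h4 : X ^ 2 ≤ (N ^ k * L) ^ 2 := by
    calc X ^ 2 = X * X := by ring
      _ ≤ N ^ (2 * k - 1) * X := mul_le_mul_of_nonneg_right h3 hX0.le
      _ = (N ^ k) ^ 2 * (X / N) := by
          have : (N ^ k) ^ 2 = N ^ (2 * k - 1) * N := by
            rw [← pow_mul, ← pow_succ]
            congr 1
            omega
          rw [this]
          field_simp
      _ ≤ (N ^ k) ^ 2 * L ^ 2 := mul_le_mul_of_nonneg_left h2 (by positivity)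
      _ = (N ^ k * L) ^ 2 := by ring
  exact (sq_le_sq₀ hX0.le (by positivity)).mp h4

theorem CLA (hABS : ABS_stmt) (hPSM : PSM_stmt) (hCPW : CPW_stmt) (hALG : ALG_stmt) :
    CLA_stmt := by
  intro s₀ ε δ hs₀ hε hδ hδ1
  obtain ⟨wC, -, hws⟩ := wg_sum
  have hWL : ∀ {M : ℝ} {n k : ℕ}, 1 ≤ M → M ≤ n → (n : ℝ) ≤ 2 ^ k * M →
      Real.exp (-((k : ℝ) ^ 2)) ≤ wg M n := fun h1 h2 h3 => wg_lower h1 h2 h3
  have hε1 : 0 < ε / 32 := by positivity
  obtain ⟨κA, hκA0, hκA1, hA⟩ := hABS s₀ (ε / 32) δ hs₀ hε1 hδ hδ1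
  set K : ℝ := 3 / δ + 1 with hK
  have hK1 : 1 ≤ K := by
    have : 0 < 3 / δ := by positivity
    rw [hK]; linarith
  have hK0 : 0 < K := by linarith
  set κ : ℝ := min κA (ε / (64 * K)) with hκ
  have hκ0 : 0 < κ := lt_min hκA0 (by positivity)
  have hκK : κ ≤ ε / (64 * K) := min_le_right _ _
  refine ⟨κ, hκ0, (min_le_left _ _).trans hκA1, fun C₁ hC₁ => ?_⟩
  have hC₁' : 1 ≤ max 1 C₁ := le_max_left _ _
  obtain ⟨CL, TL, hCL, hL⟩ := CO_log hC₁ hK0 hε1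
  obtain ⟨CG, hCG, hG⟩ := CO_G hε1 hK1 hκ0 hC₁' hWL
  set ε₂ : ℝ := min (ε / 32) (2 * δ) with hε₂
  have hε₂0 : 0 < ε₂ := lt_min hε1 (by positivity)
  obtain ⟨CP, TP, hCP0, hP⟩ := hPSM ε₂ hε₂0
  obtain ⟨CB, TB, hCB0, hB⟩ := hA κ hκ0 (min_le_left _ _) C₁ hC₁
  obtain ⟨TC, hC⟩ := hCPW δ hδ hδ1
  set D : ℝ := max 1 (CL * CG * CP) with hD
  have hD1 : 1 ≤ D := le_max_left _ _
  have hD0 : 0 < D := by linarith
  set B₀ : ℝ := max 1 CB with hB₀
  have hB₀1 : 1 ≤ B₀ := le_max_left _ _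
  refine ⟨8 * D ^ 2 * B₀, max (max TL TP) (max (max TC TB) 16), by positivity, ?_⟩
  intro T hT σ hσ hσ1 N hN1 hN2 c a hc ha Z hZ hbig hbiga
  have hTL : TL ≤ T := (le_max_left _ _).trans ((le_max_left _ _).trans hT)
  have hTP : TP ≤ T := (le_max_right _ _).trans ((le_max_left _ _).trans hT)
  have hTC : TC ≤ T := (le_max_left _ _).trans ((le_max_left _ _).trans
    ((le_max_right _ _).trans hT))
  have hTB : TB ≤ T := (le_max_right _ _).trans ((le_max_left _ _).trans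
    ((le_max_right _ _).trans hT))
  have hT16 : 16 ≤ T := (le_max_right _ _).trans ((le_max_right _ _).trans hT)
  have hT1 : 1 ≤ T := by linarith
  have hT0 : 0 < T := by linarith
  set X : ℝ := T ^ (1 + 2 * δ) with hX
  have hX1 : 1 ≤ X := Real.one_le_rpow hT1 (by linarith)
  have hX0 : 0 < X := by linarith
  have hX6 : X ≤ T ^ (2 : ℕ) := by
    rw [hX, ← Real.rpow_natCast]
    exact Real.rpow_le_rpow_of_exponent_le hT1 (by push_cast; linarith)
  have hX6' : X ≤ T ^ (6 : ℕ) := hX6.trans (pow_le_pow_right₀ hT1 (by norm_num))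
  have hNpos : 1 ≤ N := by
    have : (0 : ℝ) < N := lt_of_lt_of_le (by positivity) hN1
    exact_mod_cast this
  have hNr : (1 : ℝ) ≤ N := by exact_mod_cast hNpos
  have hNr0 : (0 : ℝ) < N := by linarith
  obtain ⟨k, hk2, hkK', hkX, hXk⟩ := hC T hTC N hN1 hN2
  have hkK : (k : ℝ) ≤ K := by rw [hK]; linarith
  have hk1 : 1 ≤ k := by omega
  obtain ⟨L, hL1, hLlow, hLup, hQL⟩ := hB T hTB σ hσ hσ1 Z hZ N hN1 hN2 a ha hbiga
  have hLr : (1 : ℝ) ≤ L := by exact_mod_cast hL1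
  have hLr0 : (0 : ℝ) < L := by linarith
  -- the coefficients
  have hcB : ∀ n ∈ Finset.Ioc N (2 * N), ‖c n‖ ≤ max 1 C₁ * T ^ κ := by
    intro n hn
    refine (hc n hn).trans ?_
    exact mul_le_mul_of_nonneg_right (le_max_right _ _) (by positivity)
  obtain ⟨b, hb, hbs⟩ := pow_poly N hNpos c (max 1 C₁ * T ^ κ) (by positivity) hcB k hk1
  set M : ℝ := (N : ℝ) ^ k with hM
  have hM1 : 1 ≤ M := one_le_pow₀ hNr
  have hM0 : 0 < M := by linarith
  obtain ⟨hl1, hl2⟩ := hL T hTL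
  set lam : ℝ := C₁ * Real.log T with hlam
  have hlam0 : 0 < lam := by linarith
  have hσ34 : 3 / 4 ≤ σ := by linarith
  -- large values
  have hLV := large_values_of (fun M hM => (hws M hM).1) Z (Finset.Ioc (N ^ k) ((2 * N) ^ k))
    (by simp) b σ M
    ((1 / lam) ^ k) hM1 (by positivity) (fun ρ hρ => (hZ ρ hρ).2.1) (fun ρ hρ => by
      rw [← hbs ρ, norm_pow]
      exact pow_le_pow_left₀ (by positivity) (hbig ρ hρ) k)
  set G : ℝ := ∑ n ∈ Finset.Ioc (N ^ k) ((2 * N) ^ k), ‖b n‖ ^ 2 * (n : ℝ) ^ (-(2 * σ)) /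
        wg M n with hGdef
  set P : ℝ := ∑ ρ ∈ Z, ∑ ρ' ∈ Z, ‖SS M (ρ.re + ρ'.re - 2 * σ) (ρ.im - ρ'.im)‖ with hPdef
  set Q : ℝ := QQ Z L with hQ
  have hQ0 : 0 ≤ Q := CLA_QQ Z L
  set R : ℝ := (Z.card : ℝ) with hR
  have hR0 : 0 ≤ R := Nat.cast_nonneg _
  have hG0 : 0 ≤ G := Finset.sum_nonneg fun n _ => div_nonneg (by positivity) (LV_wg_nonneg M n)
  have hP0 : 0 ≤ P := Finset.sum_nonneg fun _ _ => Finset.sum_nonneg fun _ _ => norm_nonneg _
  have hG1 : G ≤ CG * T ^ (2 * K * κ + ε / 32) * (M * M ^ (-(2 * σ))) :=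
    hG T hT1 N k b σ (by linarith) hNpos hkK (hkX.trans hX6') hb
  have hML : X ≤ M * L := CLA_ML hNr hX1 hk2 hXk hLr0.le hLlow
  have hML' : T ^ (1 + ε₂) ≤ M * L := by
    refine le_trans ?_ hML
    rw [hX]
    refine Real.rpow_le_rpow_of_exponent_le hT1 ?_
    have : ε₂ ≤ 2 * δ := min_le_right _ _
    linarith
  have hLT : (L : ℝ) ≤ T ^ (6 : ℕ) := by
    have h1 : (X / N) ^ (1 / 2 : ℝ) ≤ X := by
      have h2 : X / N ≤ X := div_le_self hX0.le hNr
      calc (X / N) ^ (1 / 2 : ℝ) ≤ X ^ (1 / 2 : ℝ) :=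
            Real.rpow_le_rpow (by positivity) h2 (by norm_num)
        _ ≤ X ^ (1 : ℝ) := Real.rpow_le_rpow_of_exponent_le hX1 (by norm_num)
        _ = X := Real.rpow_one X
    calc (L : ℝ) ≤ 2 * (X / N) ^ (1 / 2 : ℝ) := hLup
      _ ≤ 2 * X := by linarith
      _ ≤ T * T ^ (2 : ℕ) := mul_le_mul (by linarith) hX6 hX0.le hT0.le
      _ = T ^ (3 : ℕ) := by ring
      _ ≤ T ^ (6 : ℕ) := pow_le_pow_right₀ hT1 (by norm_num)
  set S : ℝ := R * M + R * (M * Q / L) ^ (1 / 2 : ℝ) with hS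
  have hS0 : 0 ≤ S := by positivity
  have hP1 : P ≤ CP * T ^ (ε / 32) * S := by
    refine (hP T hTP σ M L (by linarith) hM1 (hkX.trans hX6') hL1 hLT hML' Z hZ).trans ?_
    refine mul_le_mul_of_nonneg_right ?_ hS0
    refine mul_le_mul_of_nonneg_left ?_ hCP0.le
    exact Real.rpow_le_rpow_of_exponent_le hT1 (min_le_left _ _)
  set A : ℝ := D * T ^ (3 * (ε / 32) + 2 * K * κ) with hAdef
  have hA1 : 1 ≤ A := by
    have : 1 ≤ T ^ (3 * (ε / 32) + 2 * K * κ) := Real.one_le_rpow hT1 (by positivity)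
    calc (1 : ℝ) = 1 * 1 := by norm_num
      _ ≤ A := mul_le_mul hD1 this zero_le_one hD0.le
  have hmain : R ^ 2 ≤ A * (M * M ^ (-(2 * σ))) * S := by
    have e1 : R ^ 2 = (R * (1 / lam) ^ k) ^ 2 * lam ^ (2 * k) := by
      have : (1 / lam) ^ k * lam ^ k = 1 := by
        rw [← mul_pow, one_div_mul_cancel hlam0.ne', one_pow]
      calc R ^ 2 = R ^ 2 * ((1 / lam) ^ k * lam ^ k) ^ 2 := by rw [this]; ring
        _ = _ := by rw [mul_comm 2 k, pow_mul]; ring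
    rw [e1]
    have hA' : CL * T ^ (ε / 32) * (CG * T ^ (2 * K * κ + ε / 32)) *
        (CP * T ^ (ε / 32)) ≤ A := by
      have e3 : T ^ (3 * (ε / 32) + 2 * K * κ) = T ^ (ε / 32) * T ^ (2 * K * κ + ε / 32)
          * T ^ (ε / 32) := by
        rw [← Real.rpow_add hT0, ← Real.rpow_add hT0]
        congr 1; ring
      calc _ = (CL * CG * CP) * T ^ (3 * (ε / 32) + 2 * K * κ) := by rw [e3]; ring
        _ ≤ _ := mul_le_mul_of_nonneg_right (le_max_right _ _) (by positivity)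
    calc (R * (1 / lam) ^ k) ^ 2 * lam ^ (2 * k)
        ≤ (G * P) * (CL * T ^ (ε / 32)) :=
          mul_le_mul hLV (hl2 k hkK) (by positivity) (by positivity)
      _ ≤ ((CG * T ^ (2 * K * κ + ε / 32) * (M * M ^ (-(2 * σ)))) *
          (CP * T ^ (ε / 32) * S)) * (CL * T ^ (ε / 32)) := by
          refine mul_le_mul_of_nonneg_right ?_ (by positivity)
          exact mul_le_mul hG1 hP1 hP0 (by positivity)
      _ = (CL * T ^ (ε / 32) * (CG * T ^ (2 * K * κ + ε / 32)) *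
        (CP * T ^ (ε / 32))) * ((M * M ^ (-(2 * σ))) * S) := by ring
      _ ≤ A * ((M * M ^ (-(2 * σ))) * S) :=
          mul_le_mul_of_nonneg_right hA' (by positivity)
      _ = _ := by ring
  have hBT : 1 ≤ B₀ * T ^ (ε / 32) := by
    have : 1 ≤ T ^ (ε / 32) := Real.one_le_rpow hT1 hε1.le
    calc (1 : ℝ) = 1 * 1 := by norm_num
      _ ≤ B₀ * T ^ (ε / 32) := mul_le_mul hB₀1 this zero_le_one (by linarith)
  have hQB : Q ≤ B₀ * T ^ (ε / 32) * ((N : ℝ) ^ (2 - 2 * σ) * (L : ℝ) ^ 2 * R) := by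
    refine hQL.trans (mul_le_mul_of_nonneg_right ?_ (by positivity))
    exact mul_le_mul_of_nonneg_right (le_max_right _ _) (by positivity)
  have hfin := hALG R Q A (B₀ * T ^ (ε / 32)) N L X σ k hR0 hQ0 hA1 hBT hNr hLr0 hX1 hk2 hkX hXk
    hLup hσ34 hσ1 hmain hQB
  refine hfin.trans ?_
  refine mul_le_mul_of_nonneg_right ?_ (by positivity)
  have e6 : 8 * A ^ 2 * (B₀ * T ^ (ε / 32)) = 8 * D ^ 2 * B₀ *
      T ^ (2 * (3 * (ε / 32) + 2 * K * κ) + ε / 32) := by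
    rw [Real.rpow_add hT0, mul_comm (2 : ℝ) (3 * (ε / 32) + 2 * K * κ), Real.rpow_mul hT0.le,
      hAdef]
    norm_num
    ring
  rw [e6]
  refine mul_le_mul_of_nonneg_left ?_ (by positivity)
  refine Real.rpow_le_rpow_of_exponent_le hT1 ?_
  have e5 : K * κ ≤ ε / 64 := by
    calc K * κ ≤ K * (ε / (64 * K)) := mul_le_mul_of_nonneg_left hκK hK0.le
      _ = ε / 64 := by field_simp
  nlinarith [e5]

end Pool.Agent.DH
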